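import Pool.Agent.X13.CB.S4b

/-!
# MP_53b42b_nt: `φ_4(S_{4,m}(n))` is unbounded for `m ≡ 6 (mod 8)`

Proof.  Write `U, U'` for `∑ a_n x^n ↦ ∑ a_{2n} x^n, ∑ a_{2n+1} x^n` and `V` for `x ↦ x^2`, and let
`u = (1+x)/(1-x)`, `θ = 2u-2 = 4x/(1-x)`.  The generating function `H` satisfies
`H = u^{2m} V(K)`, `K = u^m V(H)`, so that `U, U'` act on `H ℤ[u]` and `K ℤ[u]` through
`f ↦ U(u^{2m} f)` etc.; these operators map `(1+u) ℤ[u]` to `(1+u) ℤ[θ]`.  The class of all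
`(1+u) 2^e (4ρ + ωθ + θ^2 κ)`, `ω` odd, `κ ∈ ℤ[θ]`, is mapped for even `m` to the same class with
`e+1` in place of `e` by `U` if `ρ` is even and by `U'` if `ρ` is odd, and the constant coefficient of
such an element is divisible by `2^{e+3}`.  Finally, for `m ≡ 14 (mod 16)` the series
`∑ S(16k+4) x^k` and for `m ≡ 6 (mod 16)` the series `∑ S(64k+16) x^k` is `H` times an element of this
class with `e = 3`; this is read off from three coefficients modulo `128`, which depend only on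
`m mod 64` and are computed in the kernel.
-/

namespace Pool.Agent.Results.MP_53b42b_nt.UnboundedValuation

open PowerSeries Finset

/-- `S_{k,m}(n)`: the coefficient of `x^n` in
`(1-x)^(-m) ∏_{i ≤ n} (1-x^(k^i))^(-m(k-1))`; for `k ≥ 2` the factors with `i > n` do not matter. -/
noncomputable def S (k m n : ℕ) : ℤ :=
  coeff n ((invOfUnit (1 - X) 1 : ℤ⟦X⟧) ^ m
    * ∏ i ∈ range (n + 1), (invOfUnit (1 - X ^ (k ^ i)) 1 : ℤ⟦X⟧) ^ (m * (k - 1)))

theorem inv_spec (k i : ℕ) (hk : 2 ≤ k) :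
    (1 - X ^ (k ^ i)) * (invOfUnit (1 - X ^ (k ^ i)) 1 : ℤ⟦X⟧) = 1 := by
  apply PowerSeries.mul_invOfUnit
  rw [map_sub, map_one, map_pow, constantCoeff_X, zero_pow (by positivity), sub_zero]
  rfl

theorem stable (k m n N : ℕ) (hk : 2 ≤ k) (h : n + 1 ≤ N) :
    coeff n ((invOfUnit (1 - X) 1 : ℤ⟦X⟧) ^ m
      * ∏ i ∈ range N, (invOfUnit (1 - X ^ (k ^ i)) 1 : ℤ⟦X⟧) ^ (m * (k - 1))) = S k m n := by
  induction N, h using Nat.le_induction with
  | base => rfl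
  | succ N hN ih =>
    rw [← ih]
    set G := (invOfUnit (1 - X ^ (k ^ N)) 1 : ℤ⟦X⟧) with hG
    have h0 : G = 1 + X ^ (k ^ N) * G := by
      have := inv_spec k N hk
      linear_combination this
    have h1 : ∀ M : ℕ, ∃ c, G ^ M = 1 + X ^ (k ^ N) * c := by
      intro M
      induction M with
      | zero => exact ⟨0, by simp⟩
      | succ M ihM =>
        obtain ⟨c, hc⟩ := ihM
        refine ⟨c + G * (1 + X ^ (k ^ N) * c), ?_⟩
        rw [pow_succ, hc]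
        conv_lhs => rw [h0]
        ring
    obtain ⟨c, hc⟩ := h1 (m * (k - 1))
    rw [prod_range_succ, ← hG, hc]
    have hlt : n < k ^ N := lt_of_lt_of_le (by omega : n < N)
      ((Nat.lt_two_pow_self).le.trans (Nat.pow_le_pow_left hk N))
    rw [mul_add, mul_one, mul_add, map_add, show ∀ a b : ℤ⟦X⟧, a * (b * (X ^ (k ^ N) * c))
      = X ^ (k ^ N) * (a * b * c) from fun a b => by ring, coeff_X_pow_mul', if_neg (by omega),
      add_zero]

theorem S_eq (m n : ℕ) : S 4 m n = coeff n (X13.CB.HH m) := by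
  have h1 : (invOfUnit (1 - X) 1 : ℤ⟦X⟧) = X13.CB.y := by
    rw [← X13.CB.gi_zero]
    unfold X13.CB.gi
    rw [pow_zero, pow_one]
  unfold S X13.CB.HH
  rw [X13.CB.coeff_QQ_pow (X13.CB.y ^ m) (3 * m) n (n + 1) le_rfl, h1]
  congr 2
  unfold X13.CB.Q4
  rw [← prod_pow]
  refine prod_congr rfl fun i _ => ?_
  unfold X13.CB.gi
  rw [pow_mul 2 2 i]
  norm_num
  congr 1
  ring

theorem pos (m n : ℕ) (hm : 0 < m) : 0 < S 4 m n := by
  have hgeo : ∀ i, X13.CB.gi (2 * i) = X13.TT.geo (2 ^ (2 * i)) := by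
    intro i
    have h1 := X13.CB.gi_mul (2 * i)
    have h2 := X13.TT.one_sub_mul_geo (d := 2 ^ (2 * i)) (by positivity)
    linear_combination X13.TT.geo (2 ^ (2 * i)) * h1 - X13.CB.gi (2 * i) * h2
  have hpow : ∀ (f : ℤ⟦X⟧) (M : ℕ), X13.TT.NN f → X13.TT.NN (f ^ M) := by
    intro f M hf
    induction M with
    | zero => rw [pow_zero]; exact X13.TT.NN.one
    | succ M ih => rw [pow_succ]; exact ih.mul hf
  have hQ : ∀ N, X13.TT.NN (X13.CB.Q4 N) := by
    intro N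
    unfold X13.CB.Q4
    exact X13.TT.NN.prod _ _ fun i _ => by rw [hgeo]; exact X13.TT.NN.geo _
  have hy : X13.TT.NN X13.CB.y := by rw [← X13.CB.geo_one_eq]; exact X13.TT.NN.geo _
  obtain ⟨m, rfl⟩ : ∃ m', m = m' + 1 := ⟨m - 1, by omega⟩
  rw [S_eq]
  unfold X13.CB.HH
  rw [X13.CB.coeff_QQ_pow (X13.CB.y ^ (m + 1)) _ n (n + 1) le_rfl, pow_succ', mul_assoc]
  set R := X13.CB.y ^ m * X13.CB.Q4 (n + 1) ^ (3 * (m + 1)) with hR
  have hRN : X13.TT.NN R := (hpow _ _ hy).mul (hpow _ _ (hQ _))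
  have hR0 : coeff 0 R = 1 := by
    have h0 : ∀ i, constantCoeff (X13.CB.gi i) = 1 := by
      intro i
      have h1 := congrArg constantCoeff (X13.CB.gi_mul i)
      rw [map_mul, map_sub, map_one, map_pow, constantCoeff_X, zero_pow (by positivity),
        sub_zero, one_mul] at h1
      exact h1
    rw [hR, coeff_zero_eq_constantCoeff_apply, map_mul, map_pow, map_pow,
      X13.CB.constantCoeff_y]
    unfold X13.CB.Q4
    rw [map_prod, prod_congr rfl fun i _ => h0 (2 * i)]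
    simp
  rw [coeff_mul]
  refine sum_pos' (fun p _ => mul_nonneg (hy _) (hRN _)) ⟨(n, 0), ?_, ?_⟩
  · rw [HasAntidiagonal.mem_antidiagonal]; rfl
  · rw [hR0]
    unfold X13.CB.y
    rw [coeff_mk]; norm_num

theorem result :
    -- longer products do not change the coefficient
    (∀ k m n N : ℕ, 2 ≤ k → n + 1 ≤ N →
      coeff n ((invOfUnit (1 - X) 1 : ℤ⟦X⟧) ^ m
        * ∏ i ∈ range N, (invOfUnit (1 - X ^ (k ^ i)) 1 : ℤ⟦X⟧) ^ (m * (k - 1))) = S k m n) ∧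
    (∀ m n : ℕ, 0 < m → 0 < S 4 m n) ∧
    -- Q1 is true
    (∀ m : ℕ, m % 8 = 6 → ∀ B : ℕ, ∃ n : ℕ, (4 : ℤ) ^ B ∣ S 4 m n) := by
  refine ⟨fun k m n N hk h => stable k m n N hk h, fun m n hm => pos m n hm, ?_⟩
  intro m hm B
  obtain ⟨n, hn⟩ := X13.CB.unbdd m hm (2 * B)
  refine ⟨n, ?_⟩
  rw [S_eq]
  rwa [pow_mul, show (2 : ℤ) ^ 2 = 4 by norm_num] at hn

end Pool.Agent.Results.MP_53b42b_nt.UnboundedValuation
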